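import Pool.Agent.Lib.Tate.R.Fam
import Pool.Agent.Lib.Tate.X.Bp
import Pool.Agent.Lib.Tate.T2.Api
import Pool.Agent.Lib.Tate.WAll

/-!
# C42 (MP_071d69_gt), block T3 (helper20): sums of labels

`add_homotopic`: let `f g h : WS.L N A`, such that the labels of `f s` and `g s'` are orthogonal if
`s`, `s'` differ at most in the coordinate `i`, and the labels of `h s` are the sums of the labels of
`f s` and `g s`.  Then `h` is homotopic to `transAt i f g`.
-/

set_option linter.unusedSectionVars false

open Topology unitInterval Filter Set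
open scoped Topology.Homotopy ZeroAtInfty OnePoint

noncomputable section

namespace Pool.Agent.Tate

variable {A N : Type} [Fintype A] [DecidableEq A] [DecidableEq N]

/-- A representative as a map to the space of configurations. -/
def toC (f : WS.L N A) : C(N → I, CW A) :=
  ⟨fun s => (show WX A from f s).1, continuous_subtype_val.comp f.1.continuous⟩

theorem toC_apply (f : WS.L N A) (s : N → I) : toC f s = (show WX A from f s).1 := rfl

theorem toC_bdry (f : WS.L N A) (s : N → I) (hs : s ∈ Cube.boundary N) : toC f s = default := by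
  have h : f s = WS.pt A := GenLoop.boundary f s hs
  have h' : (show WX A from f s) = Wpt A := h
  rw [toC_apply, h']
  rfl

theorem toC_transAt (i : N) (f g : WS.L N A) (s : N → I) :
    toC (GenLoop.transAt i f g) s = if (s i : ℝ) ≤ 1 / 2
      then toC f (Function.update s i (Set.projIcc 0 1 zero_le_one (2 * (s i : ℝ))))
      else toC g (Function.update s i (Set.projIcc 0 1 zero_le_one (2 * (s i : ℝ) - 1))) := by
  rw [toC_apply]
  have h := Ext.transAt_apply i f g s
  by_cases hs : (s i : ℝ) ≤ 1 / 2
  · rw [if_pos hs] at h ⊢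
    exact congrArg (fun x : WX A => x.1) h
  · rw [if_neg hs] at h ⊢
    exact congrArg (fun x : WX A => x.1) h

theorem inv_add {x y : CW A} (hx : x.Inv) (hy : y.Inv) (h : ∀ v w, x.P v * y.P w = 0) :
    CW.Inv (Conf.add x y h) := by
  intro v a b
  rw [Conf.add_P, Conf.add_P, Matrix.add_apply, Matrix.add_apply, hx, hy]
  ring

/-- The sum of two representatives with orthogonal labels is homotopic to their concatenation. -/
theorem add_homotopic (i : N) (f g h : WS.L N A)
    (hfg : ∀ s s', (∀ j, j ≠ i → s j = s' j) → ∀ y y', (toC f s).P y * (toC g s').P y' = 0)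
    (hh : ∀ s y, (toC h s).P y = (toC f s).P y + (toC g s).P y) :
    GenLoop.Homotopic (GenLoop.transAt i f g) h := by
  obtain ⟨H, h0, h1, hb, hs⟩ := Ext.pBp N (A → VV) (A → ZMod 4) i (toC f) (toC g) (toC_bdry f)
    (toC_bdry g) hfg
  have hinv : ∀ q, CW.Inv (H q) := by
    rintro ⟨t, s⟩
    obtain ⟨s₁, s₂, -, -, horth, hH⟩ := hs t s
    rw [hH]
    exact inv_add (show WX A from f s₁).2 (show WX A from g s₂).2 horth
  refine T2.homotopic_of (fun q => (⟨H q, hinv q⟩ : WX A)) (H.continuous.subtype_mk _) ?_ ?_ ?_
  · intro s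
    apply Subtype.ext
    show H (0, s) = toC (GenLoop.transAt i f g) s
    rw [h0, toC_transAt]
  · intro s
    apply Subtype.ext
    show H (1, s) = toC h s
    rw [h1]
    refine Conf.ext (funext fun y => ?_)
    rw [Conf.add_P, hh]
  · intro t s hs'
    apply Subtype.ext
    exact hb t s hs'

/-- The classes in the homotopy group. -/
theorem cls_add [Nonempty N] (i : N) (f g h : WS.L N A)
    (hfg : ∀ s s', (∀ j, j ≠ i → s j = s' j) → ∀ y y', (toC f s).P y * (toC g s').P y' = 0)
    (hh : ∀ s y, (toC h s).P y = (toC f s).P y + (toC g s).P y) :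
    (T2.cls h : WS.P N A) = T2.cls g * T2.cls f := by
  rw [T2.cls_mul i, T2.cls_eq]
  exact (add_homotopic i f g h hfg hh).symm

section StR

variable {A C : Type} [Fintype A] [DecidableEq A] [Fintype C] [DecidableEq C]

/-- The classes in the stable ring. -/
theorem c_add (i : (A × Fin 3) ⊕ C) (f g h : WS.L ((A × Fin 3) ⊕ C) (A ⊕ C))
    (hfg : ∀ s s', (∀ j, j ≠ i → s j = s' j) → ∀ y y', (toC f s).P y * (toC g s').P y' = 0)
    (hh : ∀ s y, (toC h s).P y = (toC f s).P y + (toC g s).P y) :
    T2.StR.c (inc h) = T2.StR.c (inc f) + T2.StR.c (inc g) := by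
  rw [← T2.StR.c_homotopic (inc_homotopic (add_homotopic i f g h hfg hh)), inc_transAt,
    T2.StR.c_transAt]

end StR

end Pool.Agent.Tate
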