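import Pool.Agent.Lib.Tate.R.Cj
import Pool.Agent.Lib.Tate.R.Add

/-!
# C42 (MP_071d69_gt), block T3 (helper20): one point with a constant label

`PD.bas a`: the projection to the basis vector `δ_a`, `PD.one`: the identity, `PD.mul`: the tensor
product.  `realL p : WS.L A A`: one point `(rho (s i), 0)_i` with the label `p`;
`realL_mul : prod (realL p) (realL q) = realL (p ⊗ q)`, `realL (PD.bas 0) = unit`,
`realL_bas : chi a = chi b → realL (bas a) ~ realL (bas b)`.
-/

set_option linter.unusedSectionVars false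

open Topology unitInterval Filter Set
open scoped Topology.Homotopy ZeroAtInfty OnePoint

noncomputable section

namespace Pool.Agent.Tate

variable {A B N M : Type} [Fintype A] [DecidableEq A] [Fintype B] [DecidableEq B]

/-! ### Projections -/

theorem single_one_apply (a x y : A → ZMod 4) :
    (Matrix.single a a (1 : ℂ) : Mt A (ZMod 4)) x y = if a = x ∧ a = y then 1 else 0 := by
  rw [Matrix.single_apply]

/-- The diagonal projection to the span of the basis vectors in `S`. -/
def PD.dia (S : Finset (A → ZMod 4)) : PD A :=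
  ⟨Matrix.diagonal fun a => if a ∈ S then 1 else 0, by
    refine ⟨?_, ?_, ?_⟩
    · rw [Matrix.IsHermitian, Matrix.diagonal_conjTranspose]
      congr 1
      funext a
      by_cases h : a ∈ S
      · simp [h]
      · simp [h]
    · rw [Matrix.diagonal_mul_diagonal]
      congr 1
      funext a
      by_cases h : a ∈ S
      · simp [h]
      · simp [h]
    · intro a b
      by_cases h : a = b
      · subst h
        rw [norm_chi, one_mul]
      · rw [Matrix.diagonal_apply_ne _ h, mul_zero]⟩

theorem PD.dia_val (S : Finset (A → ZMod 4)) :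
    (PD.dia S).1 = Matrix.diagonal fun a => if a ∈ S then 1 else 0 := rfl

/-- The projection to the basis vector `a`. -/
def PD.bas (a : A → ZMod 4) : PD A := PD.dia {a}

theorem PD.bas_apply (a x y : A → ZMod 4) :
    (PD.bas a).1 x y = if x = a ∧ y = a then 1 else 0 := by
  show Matrix.diagonal _ x y = _
  rw [Matrix.diagonal_apply]
  by_cases h1 : x = y
  · subst h1
    rw [if_pos rfl]
    by_cases h2 : x = a
    · simp [h2]
    · simp [h2]
  · rw [if_neg h1, if_neg]
    rintro ⟨h2, h3⟩
    exact h1 (h2.trans h3.symm)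

theorem PD.bas_zero_val : (PD.bas (fun _ : A => (0 : ZMod 4))).1 = mone A 0 := by
  ext x y
  rw [PD.bas_apply, mone_apply]
  simp only [eq_comm]

/-- The tensor product of projections. -/
def PD.mul (p : PD A) (q : PD B) : PD (A ⊕ B) :=
  ⟨mpr p.1 q.1, by
    refine ⟨?_, ?_, ?_⟩
    · rw [Matrix.IsHermitian, mpr_conjTranspose, p.2.1.eq, q.2.1.eq]
    · rw [← mpr_mul, p.2.2.1, q.2.2.1]
    · intro a b
      show p.1 _ _ * q.1 _ _ = _ * (p.1 _ _ * q.1 _ _)
      conv_lhs => rw [p.2.2.2, q.2.2.2]
      rw [chi_sum a, chi_sum b, map_mul]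
      ring⟩

theorem PD.mul_val (p : PD A) (q : PD B) : (PD.mul p q).1 = mpr p.1 q.1 := rfl

theorem PD.mul_bas (a : A → ZMod 4) (b : B → ZMod 4) :
    PD.mul (PD.bas a) (PD.bas b) = PD.bas (Sum.elim a b) := by
  apply Subtype.ext
  ext x y
  show (PD.bas a).1 _ _ * (PD.bas b).1 _ _ = _
  rw [PD.bas_apply, PD.bas_apply, PD.bas_apply]
  have h : ∀ z : A ⊕ B → ZMod 4, (z = Sum.elim a b) ↔ (z ∘ Sum.inl = a ∧ z ∘ Sum.inr = b) := by
    intro z
    constructor
    · rintro rfl
      exact ⟨rfl, rfl⟩
    · rintro ⟨h1, h2⟩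
      funext i
      rcases i with i | i
      · exact congrFun h1 i
      · exact congrFun h2 i
  have hx := h x
  have hy := h y
  split_ifs <;> first | (simp; done) | (exfalso; tauto)

/-! ### Products of points -/

/-- The product of two points. -/
def mulP (y : OnePoint (A → VV)) (z : OnePoint (B → VV)) : OnePoint (A ⊕ B → VV) :=
  OnePoint.elim y ∞ fun y => OnePoint.elim z ∞ fun z => ((Sum.elim y z : A ⊕ B → VV) :)

theorem mulP_coe (y : A → VV) (z : B → VV) :
    mulP (y : OnePoint (A → VV)) (z : OnePoint (B → VV)) = ((Sum.elim y z : A ⊕ B → VV) :) := rfl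

theorem infty_mulP (z : OnePoint (B → VV)) : mulP (∞ : OnePoint (A → VV)) z = ∞ := rfl

theorem mulP_infty (y : OnePoint (A → VV)) : mulP y (∞ : OnePoint (B → VV)) = ∞ := by
  cases y using OnePoint.rec with
  | infty => rfl
  | coe v => rfl

theorem mulP_eq_coe (y : OnePoint (A → VV)) (z : OnePoint (B → VV)) (v : A ⊕ B → VV) :
    mulP y z = (v : OnePoint (A ⊕ B → VV)) ↔
      y = ((v ∘ Sum.inl : A → VV) :) ∧ z = ((v ∘ Sum.inr : B → VV) :) := by
  cases y using OnePoint.rec with
  | infty =>
    rw [infty_mulP]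
    constructor
    · intro h
      exact absurd h (OnePoint.infty_ne_coe _)
    · intro h
      exact absurd h.1 (OnePoint.infty_ne_coe _)
  | coe y =>
    cases z using OnePoint.rec with
    | infty =>
      rw [mulP_infty]
      constructor
      · intro h
        exact absurd h (OnePoint.infty_ne_coe _)
      · intro h
        exact absurd h.2 (OnePoint.infty_ne_coe _)
    | coe z =>
      rw [mulP_coe, OnePoint.coe_eq_coe, OnePoint.coe_eq_coe, OnePoint.coe_eq_coe]
      constructor
      · rintro rfl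
        exact ⟨rfl, rfl⟩
      · rintro ⟨rfl, rfl⟩
        funext i
        rcases i with i | i <;> rfl

theorem rotP_mulP (y : OnePoint (A → VV)) (z : OnePoint (B → VV)) :
    rotP (mulP y z) = mulP (rotP y) (rotP z) := by
  cases y using OnePoint.rec with
  | infty => rfl
  | coe y =>
    cases z using OnePoint.rec with
    | infty => rfl
    | coe z =>
      rw [mulP_coe, rotP_coe, rotP_coe, rotP_coe, mulP_coe, OnePoint.coe_eq_coe]
      funext i
      rcases i with i | i <;> rfl

theorem mulP_rhoP (s : A → I) (t : B → I) : mulP (rhoP s) (rhoP t) = rhoP (Sum.elim s t) := by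
  by_cases hs : s ∈ Cube.boundary A
  · have hs' : Sum.elim s t ∈ Cube.boundary (A ⊕ B) := by
      obtain ⟨i, hi⟩ := hs
      exact ⟨Sum.inl i, hi⟩
    rw [rhoP_bdry hs, rhoP_bdry hs', infty_mulP]
  by_cases ht : t ∈ Cube.boundary B
  · have hs' : Sum.elim s t ∈ Cube.boundary (A ⊕ B) := by
      obtain ⟨i, hi⟩ := ht
      exact ⟨Sum.inr i, hi⟩
    rw [rhoP_bdry ht, rhoP_bdry hs', mulP_infty]
  have hst : Sum.elim s t ∉ Cube.boundary (A ⊕ B) := by
    rintro ⟨i | i, hi⟩
    · exact hs ⟨i, hi⟩
    · exact ht ⟨i, hi⟩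
  rw [rhoP_of hs, rhoP_of ht, rhoP_of hst, mulP_coe, OnePoint.coe_eq_coe]
  funext i
  rcases i with i | i <;> rfl

theorem oneW_mul (y : OnePoint (A → VV)) (hy : rotP y = y) (p : PD A) (z : OnePoint (B → VV))
    (hz : rotP z = z) (q : PD B) : Wmul (oneW y hy p) (oneW z hz q) =
      oneW (mulP y z) (by rw [rotP_mulP, hy, hz]) (PD.mul p q) := by
  classical
  refine WX.ext fun v => ?_
  show mpr ((oneW y hy p).1.P _) ((oneW z hz q).1.P _) = _
  rw [oneW_P, oneW_P, oneW_P]
  by_cases h1 : y = ((v ∘ Sum.inl : A → VV) :)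
  · by_cases h2 : z = ((v ∘ Sum.inr : B → VV) :)
    · rw [if_pos h1, if_pos h2, if_pos ((mulP_eq_coe y z v).2 ⟨h1, h2⟩)]
      rfl
    · rw [if_neg h2, mpr_zero, if_neg fun h => h2 ((mulP_eq_coe y z v).1 h).2]
  · rw [if_neg h1, zero_mpr, if_neg fun h => h1 ((mulP_eq_coe y z v).1 h).1]

/-! ### One point with a constant label -/

/-- One point in the real direction with the constant label `p`. -/
def realL (p : PD A) : WS.L A A :=
  oneL rhoP rotP_rhoP continuous_rhoP (fun _ h => rhoP_bdry h) (fun _ => p)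
    fun _ _ => continuousAt_const

theorem realL_apply (p : PD A) (s : A → I) : realL p s = oneW (rhoP s) (rotP_rhoP s) p := rfl

theorem realL_mul (p : PD A) (q : PD B) :
    CSRS.prod (realL p) (realL q) = realL (PD.mul p q) := by
  ext s
  show Wmul (oneW (rhoP fun i => s (Sum.inl i)) (rotP_rhoP _) p)
    (oneW (rhoP fun i => s (Sum.inr i)) (rotP_rhoP _) q) = oneW (rhoP s) (rotP_rhoP s) (PD.mul p q)
  rw [oneW_mul]
  refine oneW_congr _ _ ?_ fun _ => rfl
  rw [mulP_rhoP]
  congr 1
  funext i
  rcases i with i | i <;> rfl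

theorem realL_unit : realL (PD.bas fun _ : A => (0 : ZMod 4)) = WS.unit A := by
  classical
  ext s
  show oneW (rhoP s) (rotP_rhoP s) (PD.bas fun _ => 0) = Wunit' s
  refine WX.ext fun v => ?_
  rw [oneW_P]
  by_cases hs : s ∈ Cube.boundary A
  · rw [rhoP_bdry hs, Wunit_bdry hs, if_neg (OnePoint.infty_ne_coe _)]
    rfl
  · rw [rhoP_of hs]
    by_cases hv : v = fun i => (rho (s i), 0)
    · subst hv
      rw [if_pos rfl, Wunit_self hs, PD.bas_zero_val]
    · rw [if_neg (fun h => hv (OnePoint.coe_injective h).symm), Wunit_ne hv]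

theorem realL_push (e : A ≃ B) (p : PD A) (q : PD B) (h : q.1 = mre e p.1) :
    T2.lrho e e (realL p) = realL q := by
  classical
  ext s
  show Wmap e (oneW (rhoP fun i => s (e i)) (rotP_rhoP _) p) = oneW (rhoP s) (rotP_rhoP _) q
  refine WX.ext fun v => ?_
  show mre e ((oneW (rhoP fun i => s (e i)) (rotP_rhoP _) p).1.P (v ∘ e)) = _
  rw [oneW_P, oneW_P]
  have hb : (fun i => s (e i)) ∈ Cube.boundary A ↔ s ∈ Cube.boundary B := by
    constructor
    · rintro ⟨i, hi⟩
      exact ⟨e i, hi⟩
    · rintro ⟨i, hi⟩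
      exact ⟨e.symm i, by simpa using hi⟩
  by_cases hs : s ∈ Cube.boundary B
  · rw [rhoP_bdry hs, rhoP_bdry (hb.2 hs), if_neg (OnePoint.infty_ne_coe _),
      if_neg (OnePoint.infty_ne_coe _), mre_zero]
  · rw [rhoP_of hs, rhoP_of fun h' => hs (hb.1 h')]
    by_cases hv : (fun i => (rho (s i), 0)) = v
    · subst hv
      have h5 : ((fun i => (rho (s (e i)), 0) : A → VV) : OnePoint (A → VV)) =
          (((fun i => (rho (s i), 0) : B → VV) ∘ e : A → VV) : OnePoint (A → VV)) := rfl
      rw [if_pos h5, if_pos rfl]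
      exact h.symm
    · rw [if_neg (fun h => hv (OnePoint.coe_injective h)), if_neg, mre_zero]
      intro h
      apply hv
      have h2 := OnePoint.coe_injective h
      funext i
      have h3 := congrFun h2 (e.symm i)
      simpa using h3

/-- Basis labels with the same character are homotopic. -/
theorem realL_bas {a b : A → ZMod 4} (h : chi a = chi b) :
    GenLoop.Homotopic (realL (PD.bas a)) (realL (PD.bas b)) := by
  classical
  refine perm_homotopic (fun c => Equiv.swap a b c) (fun c => Equiv.swap_apply_self _ _ _) ?_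
    (realL (PD.bas b)) (realL (PD.bas a)) ?_
  · intro c
    rcases eq_or_ne c a with rfl | h1
    · rw [Equiv.swap_apply_left, h]
    · rcases eq_or_ne c b with rfl | h2
      · rw [Equiv.swap_apply_right, h]
      · rw [Equiv.swap_apply_of_ne_of_ne h1 h2]
  · intro s v x y
    show (oneW (rhoP s) (rotP_rhoP s) (PD.bas a)).1.P v x y =
      (oneW (rhoP s) (rotP_rhoP s) (PD.bas b)).1.P v (Equiv.swap a b x) (Equiv.swap a b y)
    rw [oneW_P, oneW_P]
    by_cases hv : rhoP s = (v : OnePoint (A → VV))
    · rw [if_pos hv, if_pos hv, PD.bas_apply, PD.bas_apply]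
      have h1 : ∀ x, Equiv.swap a b x = b ↔ x = a := by
        intro x
        constructor
        · intro h2
          have h3 := congrArg (Equiv.swap a b) h2
          rwa [Equiv.swap_apply_self, Equiv.swap_apply_right] at h3
        · rintro rfl
          exact Equiv.swap_apply_left _ _
      simp only [h1]
    · rw [if_neg hv, if_neg hv]
      rfl

/-- Orthogonal sums of labels. -/
theorem realL_add [Nonempty A] (p q r : PD A) (h : p.1 * q.1 = 0) (hr : r.1 = p.1 + q.1) :
    (T2.cls (realL r) : WS.P A A) = T2.cls (realL q) * T2.cls (realL p) := by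
  classical
  refine cls_add (Classical.arbitrary A) _ _ _ ?_ ?_
  · intro s s' _ y y'
    show (oneW (rhoP s) (rotP_rhoP s) p).1.P y * (oneW (rhoP s') (rotP_rhoP s') q).1.P y' = 0
    rw [oneW_P, oneW_P]
    split_ifs
    · exact h
    · exact mul_zero _
    · exact zero_mul _
    · exact mul_zero _
  · intro s y
    show (oneW (rhoP s) (rotP_rhoP s) r).1.P y = (oneW (rhoP s) (rotP_rhoP s) p).1.P y +
      (oneW (rhoP s) (rotP_rhoP s) q).1.P y
    rw [oneW_P, oneW_P, oneW_P]
    split_ifs
    · exact hr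
    · rw [add_zero]

end Pool.Agent.Tate
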