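import Pool.Agent.Lib.Tate.R.Fam

/-!
# C42 (MP_071d69_gt), block T3 (helper20): conjugation of the labels

`UD A`: unitary matrices over `A → ZMod 4` which commute with `diag chi`.  `cj U x` (`x : WX A`): all
labels are conjugated with `U`.  Jointly continuous in `(U, x)` (`continuous_cj`); at points with
`x = pt` no continuity of `U` is needed (`continuousAt_cj_pt`).  `cjL`, `cjL_homotopic`: conjugation of
representatives by a family of unitary matrices, homotopies.  `perm_homotopic`: conjugation by the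
permutation matrix of an involution of the basis, which preserves the characters, is homotopic to
the identity.
-/

set_option linter.unusedSectionVars false

open Topology unitInterval Filter Set
open scoped Topology.Homotopy ZeroAtInfty OnePoint

noncomputable section

namespace Pool.Agent.Tate

variable {A N : Type} [Fintype A] [DecidableEq A]

/-- Unitary matrices which commute with the cyclic group. -/
def UD (A : Type) [Fintype A] [DecidableEq A] : Type :=
  {U : Mt A (ZMod 4) // U.conjTranspose * U = 1 ∧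
    ∀ a b, U a b = chi a * (starRingEnd ℂ) (chi b) * U a b}

instance : TopologicalSpace (UD A) := instTopologicalSpaceSubtype

theorem UD.chi_mul (U : UD A) (a b : A → ZMod 4) : U.1 a b * chi b = chi a * U.1 a b := by
  conv_lhs => rw [U.2.2 a b]
  linear_combination (chi a * U.1 a b) * norm_chi b

theorem UD.chi_mul' (U : UD A) (a b : A → ZMod 4) :
    (starRingEnd ℂ) (U.1 a b) * (starRingEnd ℂ) (chi b) =
      (starRingEnd ℂ) (chi a) * (starRingEnd ℂ) (U.1 a b) := by
  rw [← map_mul, U.chi_mul, map_mul]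

theorem UD.mul_self' (U : UD A) : U.1 * U.1.conjTranspose = 1 := mul_eq_one_comm.1 U.2.1

/-- The identity matrix. -/
def UD.one (A : Type) [Fintype A] [DecidableEq A] : UD A := ⟨1, by simp, by
  intro a b
  by_cases h : a = b
  · subst h
    rw [norm_chi, one_mul]
  · rw [Matrix.one_apply_ne h, mul_zero]⟩

/-- Conjugation of a matrix. -/
def cjM (U p : Mt A (ZMod 4)) : Mt A (ZMod 4) := U * p * U.conjTranspose

theorem cjM_mul {U : Mt A (ZMod 4)} (hU : U.conjTranspose * U = 1) (p q : Mt A (ZMod 4)) :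
    cjM U p * cjM U q = cjM U (p * q) := by
  unfold cjM
  calc U * p * U.conjTranspose * (U * q * U.conjTranspose) =
      U * p * (U.conjTranspose * U) * q * U.conjTranspose := by simp only [Matrix.mul_assoc]
    _ = _ := by
      rw [hU, Matrix.mul_one, Matrix.mul_assoc U]

theorem cjM_zero (U : Mt A (ZMod 4)) : cjM U 0 = 0 := by
  unfold cjM
  simp

theorem cjM_one (p : Mt A (ZMod 4)) : cjM 1 p = p := by
  unfold cjM
  simp

theorem cjM_herm (U : Mt A (ZMod 4)) {p : Mt A (ZMod 4)} (hp : p.IsHermitian) :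
    (cjM U p).IsHermitian := by
  unfold cjM
  rw [Matrix.IsHermitian, Matrix.conjTranspose_mul, Matrix.conjTranspose_mul,
    Matrix.conjTranspose_conjTranspose, hp.eq, Matrix.mul_assoc]

theorem cjM_apply (U p : Mt A (ZMod 4)) (a b : A → ZMod 4) :
    cjM U p a b = ∑ d, ∑ c, U a c * p c d * (starRingEnd ℂ) (U b d) := by
  unfold cjM
  rw [Matrix.mul_apply]
  refine Finset.sum_congr rfl fun d _ => ?_
  rw [Matrix.mul_apply, Finset.sum_mul]
  rfl

/-- Conjugation of all labels. -/
def cjC (U : UD A) (x : CW A) : CW A where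
  P y := cjM U.1 (x.P y)
  fin := by
    refine x.fin.subset ?_
    intro y hy h0
    exact hy (by rw [h0, cjM_zero])
  herm y := cjM_herm U.1 (x.herm y)
  idem y := by rw [cjM_mul U.2.1, x.idem]
  orth y y' h := by rw [cjM_mul U.2.1, x.orth _ _ h, cjM_zero]

/-- Conjugation of all labels of a point of the witness. -/
def cj (U : UD A) (x : WX A) : WX A :=
  ⟨cjC U x.1, by
    intro y a b
    show cjM U.1 (x.1.P (rot y)) a b = _ * cjM U.1 (x.1.P y) a b
    rw [cjM_apply, cjM_apply, Finset.mul_sum]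
    refine Finset.sum_congr rfl fun d _ => ?_
    rw [Finset.mul_sum]
    refine Finset.sum_congr rfl fun c _ => ?_
    rw [x.2]
    linear_combination (x.1.P y c d * (starRingEnd ℂ) (chi d) * (starRingEnd ℂ) (U.1 b d)) *
      U.chi_mul a c + (chi a * U.1 a c * x.1.P y c d) * U.chi_mul' b d⟩

theorem cj_P (U : UD A) (x : WX A) (y : A → VV) : (cj U x).1.P y = cjM U.1 (x.1.P y) := rfl

theorem cj_one (x : WX A) : cj (UD.one A) x = x := WX.ext fun _ => cjM_one _

theorem cj_pt (U : UD A) : cj U (Wpt A) = Wpt A := WX.ext fun _ => cjM_zero _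

theorem ev_cjC (U : UD A) (x : CW A) (f : (A → VV) → ℝ) : (cjC U x).ev f = cjM U.1 (x.ev f) := by
  have h1 : (cjC U x).ev f = ∑ y ∈ x.fin.toFinset, (f y : ℂ) • (cjC U x).P y := by
    unfold Conf.ev
    apply finsum_eq_sum_of_support_subset
    intro y hy
    simp only [Function.mem_support, ne_eq] at hy
    simp only [Finite.coe_toFinset, mem_ofPred_eq]
    intro h
    apply hy
    show (f y : ℂ) • cjM U.1 (x.P y) = 0
    rw [h, cjM_zero, smul_zero]
  rw [h1, Conf.ev_eq_sum]
  unfold cjM
  rw [Finset.mul_sum, Finset.sum_mul]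
  refine Finset.sum_congr rfl fun y _ => ?_
  show (f y : ℂ) • (U.1 * x.P y * U.1.conjTranspose) = _
  rw [Matrix.mul_smul, Matrix.smul_mul]

/-- Conjugation is jointly continuous. -/
theorem continuous_cj : Continuous fun q : UD A × WX A => cj q.1 q.2 := by
  refine Continuous.subtype_mk ?_ _
  refine Conf.continuous_iff.2 fun f => ?_
  simp only [ev_cjC]
  have hU : Continuous fun q : UD A × WX A => q.1.1 := continuous_subtype_val.comp continuous_fst
  have hx : Continuous fun q : UD A × WX A => q.2.1.ev f :=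
    Conf.continuous_iff.1 (continuous_subtype_val.comp continuous_snd) f
  exact (hU.mul hx).mul (Continuous.matrix_conjTranspose hU)

theorem UD.norm_le (U : UD A) (a b : A → ZMod 4) : ‖U.1 a b‖ ≤ 1 := by
  have h1 : ∑ c, ‖U.1 a c‖ ^ 2 = (1 : ℝ) := by
    have h2 := congrFun (congrFun U.mul_self' a) a
    rw [Matrix.mul_apply, Matrix.one_apply_eq] at h2
    have h3 : ((∑ c, ‖U.1 a c‖ ^ 2 : ℝ) : ℂ) = 1 := by
      rw [← h2]
      push_cast
      refine Finset.sum_congr rfl fun c _ => ?_
      rw [Matrix.conjTranspose_apply]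
      exact (Complex.mul_conj' (U.1 a c)).symm
    exact_mod_cast h3
  have h4 : ‖U.1 a b‖ ^ 2 ≤ 1 := by
    rw [← h1]
    exact Finset.single_le_sum (f := fun c => ‖U.1 a c‖ ^ 2) (fun _ _ => by positivity)
      (Finset.mem_univ b)
  nlinarith [norm_nonneg (U.1 a b)]

theorem norm_cjM_le (U : UD A) (p : Mt A (ZMod 4)) (a b : A → ZMod 4) :
    ‖cjM U.1 p a b‖ ≤ ∑ d, ∑ c, ‖p c d‖ := by
  rw [cjM_apply]
  refine (norm_sum_le _ _).trans (Finset.sum_le_sum fun d _ => (norm_sum_le _ _).trans
    (Finset.sum_le_sum fun c _ => ?_))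
  rw [norm_mul, norm_mul, RCLike.norm_conj]
  have h1 := U.norm_le a c
  have h2 := U.norm_le b d
  have h3 : ‖U.1 a c‖ * ‖p c d‖ ≤ ‖p c d‖ := mul_le_of_le_one_left (norm_nonneg _) h1
  exact (mul_le_of_le_one_right (by positivity) h2).trans h3

/-- At the base point conjugation is continuous uniformly in `U`. -/
theorem continuousAt_cj_pt {X : Type*} [TopologicalSpace X] (U : X → UD A) {F : X → WX A} {x₀ : X}
    (hF : ContinuousAt F x₀) (h0 : F x₀ = Wpt A) : ContinuousAt (fun x => cj (U x) (F x)) x₀ := by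
  refine Topology.IsInducing.subtypeVal.continuousAt_iff.2 ?_
  refine Conf.tendsto_iff.2 fun f => ?_
  have hF' : Tendsto (fun x => (F x).1.ev f) (𝓝 x₀) (𝓝 ((F x₀).1.ev f)) :=
    Conf.tendsto_iff.1 (continuous_subtype_val.continuousAt.comp hF) f
  have hz : (F x₀).1.ev f = 0 := by
    rw [h0]
    unfold Conf.ev Wpt
    simp
  have hz' : (cj (U x₀) (F x₀)).1.ev f = 0 := by
    show (cjC (U x₀) (F x₀).1).ev f = 0
    rw [ev_cjC, hz, cjM_zero]
  show Tendsto (fun x => (cjC (U x) (F x).1).ev f) (𝓝 x₀) (𝓝 ((cj (U x₀) (F x₀)).1.ev f))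
  rw [hz']
  simp only [ev_cjC]
  refine tendsto_pi_nhds.2 fun a => tendsto_pi_nhds.2 fun b => ?_
  show Tendsto (fun x => cjM (U x).1 ((F x).1.ev f) a b) (𝓝 x₀) (𝓝 (0 : ℂ))
  rw [tendsto_zero_iff_norm_tendsto_zero]
  rw [hz] at hF'
  have h1 : Tendsto (fun x => ∑ d, ∑ c, ‖(F x).1.ev f c d‖) (𝓝 x₀) (𝓝 0) := by
    have h2 : (0 : ℝ) = ∑ d : A → ZMod 4, ∑ c : A → ZMod 4, ‖(0 : Mt A (ZMod 4)) c d‖ := by simp
    rw [h2]
    refine tendsto_finsetSum _ fun d _ => tendsto_finsetSum _ fun c _ => ?_
    exact ((tendsto_pi_nhds.1 (tendsto_pi_nhds.1 hF' c) d)).norm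
  exact squeeze_zero (fun _ => norm_nonneg _) (fun x => norm_cjM_le (U x) _ a b) h1

theorem continuousAt_cj {X : Type*} [TopologicalSpace X] {U : X → UD A} {F : X → WX A} {x₀ : X}
    (hF : ContinuousAt F x₀) (hU : F x₀ ≠ Wpt A → ContinuousAt U x₀) :
    ContinuousAt (fun x => cj (U x) (F x)) x₀ := by
  by_cases h : F x₀ = Wpt A
  · exact continuousAt_cj_pt U hF h
  · exact ContinuousAt.comp (g := fun q : UD A × WX A => cj q.1 q.2) (f := fun x => (U x, F x))
      (x := x₀) continuous_cj.continuousAt ((hU h).prodMk hF)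

theorem WL_bdry (F : WS.L N A) {s : N → I} (hs : s ∈ Cube.boundary N) : F s = WS.pt A :=
  GenLoop.boundary F s hs

theorem WL_bdry' (F : WS.L N A) {s : N → I} (hs : s ∈ Cube.boundary N) : F s = Wpt A :=
  WL_bdry F hs

/-- Conjugation of a representative by a family of unitary matrices. -/
def cjL (U : (N → I) → UD A) (F : WS.L N A) (hU : ∀ s, F s ≠ Wpt A → ContinuousAt U s) :
    WS.L N A :=
  ⟨⟨fun s => cj (U s) (F s), continuous_iff_continuousAt.2 fun s =>
      continuousAt_cj F.1.continuous.continuousAt (hU s)⟩, fun s hs => by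
    show cj (U s) (F s) = Wpt A
    rw [WL_bdry' F hs, cj_pt]⟩

theorem cjL_apply (U : (N → I) → UD A) (F : WS.L N A)
    (hU : ∀ s, F s ≠ Wpt A → ContinuousAt U s) (s : N → I) :
    cjL U F hU s = (cj (U s) (F s) : WX A) := rfl

/-- A homotopy by conjugation. -/
theorem cj_homotopic (F F' : WS.L N A) (U : I × (N → I) → UD A)
    (hU : ∀ t s, F s ≠ Wpt A → ContinuousAt U (t, s)) (h0 : ∀ s, cj (U (0, s)) (F s) = F s)
    (h1 : ∀ s, cj (U (1, s)) (F s) = F' s) : GenLoop.Homotopic F F' := by
  refine T2.homotopic_of (fun q => (cj (U q) (F q.2) : WX A)) (continuous_iff_continuousAt.2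
    fun q => continuousAt_cj (F := fun q : I × (N → I) => (F q.2 : WX A))
      (F.1.continuous.comp continuous_snd).continuousAt (hU q.1 q.2)) h0 h1 ?_
  intro t s hs
  show cj (U (t, s)) (F s) = Wpt A
  rw [WL_bdry' F hs, cj_pt]

/-! ### Involutions of the basis -/

/-- The permutation matrix. -/
def bmat (g : (A → ZMod 4) → (A → ZMod 4)) : Mt A (ZMod 4) := fun a b => if b = g a then 1 else 0

theorem bmat_mul_apply (g : (A → ZMod 4) → (A → ZMod 4)) (p : Mt A (ZMod 4)) (a b : A → ZMod 4) :
    (bmat g * p) a b = p (g a) b := by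
  rw [Matrix.mul_apply]
  unfold bmat
  simp

theorem mul_bmat_apply (g : (A → ZMod 4) → (A → ZMod 4)) (p : Mt A (ZMod 4)) (a b : A → ZMod 4) :
    (p * (bmat g).conjTranspose) a b = p a (g b) := by
  rw [Matrix.mul_apply]
  simp only [Matrix.conjTranspose_apply]
  unfold bmat
  simp

theorem bmat_sq {g : (A → ZMod 4) → (A → ZMod 4)} (hg : ∀ a, g (g a) = a) :
    bmat g * bmat g = 1 := by
  ext a b
  rw [bmat_mul_apply]
  unfold bmat
  rw [hg, Matrix.one_apply]
  simp only [eq_comm]

theorem bmat_conj {g : (A → ZMod 4) → (A → ZMod 4)} (hg : ∀ a, g (g a) = a) :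
    (bmat g).conjTranspose = bmat g := by
  ext a b
  rw [Matrix.conjTranspose_apply]
  unfold bmat
  have h : (a = g b) ↔ (b = g a) := by
    constructor
    · intro h
      rw [h, hg]
    · intro h
      rw [h, hg]
  by_cases h' : a = g b
  · rw [if_pos h', if_pos (h.1 h')]
    simp
  · rw [if_neg h', if_neg (fun h'' => h' (h.2 h''))]
    simp

/-- The path of unitary matrices from the permutation matrix (`t = 0`) to `1` (`t = 1`). -/
def bpath (g : (A → ZMod 4) → (A → ZMod 4)) (hg : ∀ a, g (g a) = a) (hc : ∀ a, chi (g a) = chi a)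
    (t : I) : UD A :=
  ⟨T2.upath (bmat g) (T2.zt t), by
    rw [T2.upath_conjTranspose _ (bmat_conj hg), T2.upath_mul _ (bmat_sq hg) _ _
      (T2.zt_conj_mul t)], by
    intro a b
    have key : ∀ x : ℂ, (x ≠ 0 → chi a = chi b) →
        x = chi a * (starRingEnd ℂ) (chi b) * x := by
      intro x hx
      by_cases h0 : x = 0
      · rw [h0, mul_zero]
      · rw [hx h0, norm_chi, one_mul]
    refine key _ fun h => ?_
    by_contra hab
    apply h
    have h1 : a ≠ b := fun h' => hab (by rw [h'])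
    have h2 : b ≠ g a := fun h' => hab (by rw [h', hc])
    unfold T2.upath
    simp only [Matrix.add_apply, Matrix.sub_apply, Matrix.smul_apply, smul_eq_mul,
      Matrix.one_apply_ne h1]
    unfold bmat
    rw [if_neg h2]
    ring⟩

theorem bpath_zero (g : (A → ZMod 4) → (A → ZMod 4)) (hg : ∀ a, g (g a) = a)
    (hc : ∀ a, chi (g a) = chi a) : (bpath g hg hc 0).1 = bmat g := by
  show T2.upath _ _ = _
  rw [T2.zt_zero]
  unfold T2.upath
  ext a b
  simp only [Matrix.add_apply, Matrix.sub_apply, Matrix.smul_apply, smul_eq_mul]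
  ring

theorem bpath_one (g : (A → ZMod 4) → (A → ZMod 4)) (hg : ∀ a, g (g a) = a)
    (hc : ∀ a, chi (g a) = chi a) : bpath g hg hc 1 = UD.one A := by
  apply Subtype.ext
  show T2.upath _ _ = 1
  rw [T2.zt_one]
  unfold T2.upath
  ext a b
  simp only [Matrix.add_apply, Matrix.sub_apply, Matrix.smul_apply, smul_eq_mul]
  ring

theorem continuous_bpath (g : (A → ZMod 4) → (A → ZMod 4)) (hg : ∀ a, g (g a) = a)
    (hc : ∀ a, chi (g a) = chi a) : Continuous (bpath g hg hc) := by
  refine Continuous.subtype_mk ?_ _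
  unfold T2.upath
  have := T2.continuous_zt
  fun_prop

theorem cj_bmat (g : (A → ZMod 4) → (A → ZMod 4)) (hg : ∀ a, g (g a) = a)
    (hc : ∀ a, chi (g a) = chi a) (x : WX A) (y : A → VV) (a b : A → ZMod 4) :
    (cj (bpath g hg hc 0) x).1.P y a b = x.1.P y (g a) (g b) := by
  rw [cj_P, bpath_zero]
  unfold cjM
  rw [mul_bmat_apply, bmat_mul_apply]

/-- Conjugation by the permutation matrix of an involution which preserves the characters is
homotopic to the identity. -/
theorem perm_homotopic (g : (A → ZMod 4) → (A → ZMod 4)) (hg : ∀ a, g (g a) = a)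
    (hc : ∀ a, chi (g a) = chi a) (F F' : WS.L N A)
    (h : ∀ s y a b, (F' s : WX A).1.P y a b = (F s : WX A).1.P y (g a) (g b)) :
    GenLoop.Homotopic F' F := by
  refine T2.homotopic_of (fun q => (cj (bpath g hg hc q.1) (F q.2) : WX A)) ?_ ?_ ?_ ?_
  · exact Continuous.comp (g := fun q : UD A × WX A => cj q.1 q.2)
      (f := fun q : I × (N → I) => (bpath g hg hc q.1, (F q.2 : WX A))) continuous_cj
      (((continuous_bpath g hg hc).comp continuous_fst).prodMk
      (F.1.continuous.comp continuous_snd))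
  · intro s
    refine WX.ext fun y => ?_
    ext a b
    rw [h]
    exact cj_bmat g hg hc _ y a b
  · intro s
    show cj (bpath g hg hc 1) (F s) = F s
    rw [bpath_one]
    exact cj_one (A := A) (F s)
  · intro t s hs
    show cj _ (F s) = Wpt A
    rw [WL_bdry' F hs, cj_pt]

end Pool.Agent.Tate
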