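import Pool.Agent.Lib.Tate.R.W
import Pool.Agent.Lib.Tate.Conn.Pc
import Pool.Agent.Lib.Tate.Conn.Us

/-!
# C42 (MP_071d69_gt), block T3 (helper20): finite families of points with labels

`fam y p h`: the configuration with the points `y i : OnePoint Y` and the labels `p i`, `i` in a
finite set (`OF p`: mutually orthogonal projections); labels of equal points are added, the point `∞`
is dropped.  It depends continuously on `y` and `p` (`continuousAt_fam`; at `x₀` the label `p i` need
only be continuous if `y x₀ i ≠ ∞`).  `famW`: the same in `WX A`.  `rhoP s`: the point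
`(rho (s i), 0)_i` of `(A → VV)`, `∞` on the boundary of the cube; continuous.
-/

set_option linter.unusedSectionVars false

open Topology unitInterval Filter Set
open scoped Topology.Homotopy ZeroAtInfty OnePoint

noncomputable section

namespace Pool.Agent.Tate

/-! ### Families -/

section fam

variable {ι κ Y J : Type} [Fintype ι] [Fintype κ] [Fintype J]

/-- A family of mutually orthogonal projections. -/
structure OF (p : ι → Matrix J J ℂ) : Prop where
  herm : ∀ i, (p i).IsHermitian
  idem : ∀ i, p i * p i = p i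
  orth : ∀ i j, i ≠ j → p i * p j = 0

open Classical in
/-- The configuration with the points `y i` and the labels `p i`. -/
def fam (y : ι → OnePoint Y) (p : ι → Matrix J J ℂ) (h : OF p) : Conf Y J where
  P v := ∑ i with y i = (v : OnePoint Y), p i
  fin := by
    refine ((Set.finite_range fun i => OnePoint.elim (y i) none some).preimage
      (f := fun v : Y => (some v : Option Y)) (fun a _ b _ h => Option.some_injective _ h)).subset ?_
    intro v hv
    by_contra hcon
    apply hv
    refine Finset.sum_eq_zero fun i hi => ?_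
    rw [Finset.mem_filter] at hi
    exact absurd ⟨i, by simp [hi.2]⟩ hcon
  herm v := by
    rw [Matrix.IsHermitian, Matrix.conjTranspose_sum]
    exact Finset.sum_congr rfl fun i _ => h.herm i
  idem v := by
    rw [Finset.sum_mul_sum]
    refine Finset.sum_congr rfl fun i hi => ?_
    rw [Finset.sum_eq_single i (fun j _ hj => h.orth _ _ hj.symm) (fun hn => absurd hi hn), h.idem]
  orth v w hvw := by
    rw [Finset.sum_mul_sum]
    refine Finset.sum_eq_zero fun i hi => Finset.sum_eq_zero fun j hj => h.orth _ _ ?_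
    rintro rfl
    rw [Finset.mem_filter] at hi hj
    exact hvw (OnePoint.coe_injective (hi.2.symm.trans hj.2))

open Classical in
theorem fam_P (y : ι → OnePoint Y) (p : ι → Matrix J J ℂ) (h : OF p) (v : Y) :
    (fam y p h).P v = ∑ i with y i = (v : OnePoint Y), p i := rfl

theorem OF.eq_zero_of_sum [DecidableEq ι] {p : ι → Matrix J J ℂ} (h : OF p) {s : Finset ι}
    (hs : ∑ i ∈ s, p i = 0) {i : ι} (hi : i ∈ s) : p i = 0 := by
  have h1 : p i * ∑ j ∈ s, p j = p i := by
    rw [Finset.mul_sum, Finset.sum_eq_single i (fun j _ hj => h.orth _ _ hj.symm)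
      (fun hn => absurd hi hn), h.idem]
  rw [← h1, hs, mul_zero]

/-- A family, tested with a function. -/
theorem ev_fam (y : ι → OnePoint Y) (p : ι → Matrix J J ℂ) (h : OF p) (f : Y → ℝ) :
    (fam y p h).ev f = ∑ i, ((OnePoint.elim (y i) 0 f : ℝ) : ℂ) • p i := by
  classical
  have key : ∀ v : Y, (f v : ℂ) • (fam y p h).P v =
      ∑ i, if y i = (v : OnePoint Y) then (f v : ℂ) • p i else 0 := by
    intro v
    rw [fam_P, Finset.smul_sum, Finset.sum_filter]
  rw [Conf.ev_eq_sum, Finset.sum_congr rfl fun v _ => key v, Finset.sum_comm]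
  refine Finset.sum_congr rfl fun i _ => ?_
  cases hy : y i using OnePoint.rec with
  | infty => simp
  | coe w =>
    simp only [OnePoint.elim_some, OnePoint.coe_eq_coe]
    by_cases hp : p i = 0
    · simp [hp]
    rw [Finset.sum_eq_single w]
    · simp
    · intro z' _ hz'
      simp [hz'.symm]
    · intro hn
      refine absurd ?_ hn
      rw [Set.Finite.mem_toFinset, Set.mem_ofPred_eq, fam_P]
      intro h0
      exact hp (h.eq_zero_of_sum h0 (by simp [hy]))

/-- Entries of a projection are bounded by one. -/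
theorem proj_norm_le {q : Matrix J J ℂ} (h1 : q.IsHermitian) (h2 : q * q = q) (a b : J) :
    ‖q a b‖ ≤ 1 := by
  classical
  let c : Conf Unit J := Conf.single () q h1 h2
  have h := Cnn.pN1 Unit J c (fun _ => 1) 1 zero_le_one (fun _ _ => by simp) a b
  have he : c.ev (fun _ => 1) = q := by
    unfold Conf.ev
    rw [finsum_eq_single _ () (fun y hy => absurd (Subsingleton.elim _ _) hy)]
    rw [Conf.single_self]
    simp
  rwa [he] at h

/-- Continuity of a family. -/
theorem continuousAt_fam [TopologicalSpace Y] [T2Space Y] {X : Type*} [TopologicalSpace X]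
    {y : X → ι → OnePoint Y} {p : X → ι → Matrix J J ℂ} (h : ∀ x, OF (p x)) {x₀ : X}
    (hy : ∀ i, ContinuousAt (fun x => y x i) x₀)
    (hp : ∀ i, y x₀ i ≠ ∞ → ContinuousAt (fun x => p x i) x₀) :
    ContinuousAt (fun x => fam (y x) (p x) (h x)) x₀ := by
  refine Conf.tendsto_iff.2 fun f => ?_
  simp only [ev_fam]
  refine tendsto_finsetSum _ fun i _ => ?_
  have hF : ContinuousAt (fun x => (OnePoint.elim (y x i) 0 f : ℝ)) x₀ :=
    (Cnn.PcAux.elim_cont f).continuousAt.comp (hy i)
  by_cases hi : y x₀ i = ∞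
  · have h0 : (OnePoint.elim (y x₀ i) 0 f : ℝ) = 0 := by
      rw [hi]
      rfl
    rw [h0]
    rw [Complex.ofReal_zero, zero_smul]
    refine tendsto_pi_nhds.2 fun a => tendsto_pi_nhds.2 fun b => ?_
    show Tendsto (fun x => ((OnePoint.elim (y x i) 0 f : ℝ) : ℂ) * p x i a b) (𝓝 x₀) (𝓝 (0 : ℂ))
    rw [tendsto_zero_iff_norm_tendsto_zero]
    have hF0 : Tendsto (fun x => |(OnePoint.elim (y x i) 0 f : ℝ)|) (𝓝 x₀) (𝓝 0) := by
      have := hF.tendsto.abs
      rwa [h0, abs_zero] at this
    refine squeeze_zero (fun _ => norm_nonneg _) (fun x => ?_) hF0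
    rw [norm_mul, Complex.norm_real, Real.norm_eq_abs]
    exact mul_le_of_le_one_right (abs_nonneg _) (proj_norm_le ((h x).herm i) ((h x).idem i) a b)
  · exact (Complex.continuous_ofReal.continuousAt.comp hF).smul (hp i hi)

/-- A permutation of the index set does not change the configuration. -/
theorem fam_reindex (e : ι ≃ κ) {y : κ → OnePoint Y} {p : κ → Matrix J J ℂ} (h : OF p)
    (h' : OF (p ∘ e)) : fam (y ∘ e) (p ∘ e) h' = fam y p h := by
  classical
  ext v : 2
  rw [fam_P, fam_P, Finset.sum_filter, Finset.sum_filter]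
  exact Fintype.sum_equiv e _ _ fun i => rfl

theorem fam_congr {y y' : ι → OnePoint Y} {p p' : ι → Matrix J J ℂ} (h : OF p) (h' : OF p')
    (hy : ∀ i, p i ≠ 0 → y i = y' i) (hp : ∀ i, y' i ≠ ∞ → p i = p' i) : fam y p h = fam y' p' h' := by
  classical
  ext v : 2
  rw [fam_P, fam_P, Finset.sum_filter, Finset.sum_filter]
  refine Finset.sum_congr rfl fun i _ => ?_
  by_cases h0 : p i = 0
  · by_cases h1 : y' i = (v : OnePoint Y)
    · have h2 : p i = p' i := hp i (by rw [h1]; exact OnePoint.coe_ne_infty _)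
      rw [if_pos h1, ← h2, h0]
      simp
    · rw [if_neg h1, h0]
      simp
  · rw [hy i h0]
    by_cases h1 : y' i = (v : OnePoint Y)
    · rw [if_pos h1, if_pos h1]
      exact hp i (by rw [h1]; exact OnePoint.coe_ne_infty _)
    · rw [if_neg h1, if_neg h1]

theorem fam_infty {y : ι → OnePoint Y} {p : ι → Matrix J J ℂ} (h : OF p)
    (hy : ∀ i, y i = ∞) : fam y p h = default := by
  classical
  apply Conf.eq_default
  intro v
  rw [fam_P]
  refine Finset.sum_eq_zero fun i hi => ?_
  rw [Finset.mem_filter, hy i] at hi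
  exact absurd hi.2 (OnePoint.infty_ne_coe _)

end fam

/-! ### Families in the witness -/

section famW

variable {ι A : Type} [Fintype ι] [Fintype A] [DecidableEq A]

/-- The action of the generator of the cyclic group on the points. -/
def rotP (y : OnePoint (A → VV)) : OnePoint (A → VV) := OnePoint.map rot y

theorem rotP_coe (y : A → VV) : rotP (y : OnePoint (A → VV)) = (rot y : A → VV) := rfl

theorem rotP_infty : rotP (∞ : OnePoint (A → VV)) = ∞ := rfl

theorem rotP_injective : Function.Injective (rotP : OnePoint (A → VV) → OnePoint (A → VV)) := by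
  intro y y' h
  cases y using OnePoint.rec with
  | infty =>
    cases y' using OnePoint.rec with
    | infty => rfl
    | coe w =>
      rw [rotP_coe, rotP_infty] at h
      exact absurd h (OnePoint.infty_ne_coe _)
  | coe v =>
    cases y' using OnePoint.rec with
    | infty =>
      rw [rotP_coe, rotP_infty] at h
      exact absurd h (OnePoint.coe_ne_infty _)
    | coe w =>
      rw [rotP_coe, rotP_coe, OnePoint.coe_eq_coe] at h
      rw [rot_injective h]

/-- Equivariance of a family, with the permutation `r` of the index set. -/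
structure EqF (r : ι ≃ ι) (y : ι → OnePoint (A → VV)) (p : ι → Mt A (ZMod 4)) : Prop where
  pts : ∀ i, y (r i) = rotP (y i)
  lab : ∀ i a b, p (r i) a b = chi a * (starRingEnd ℂ) (chi b) * p i a b

/-- An equivariant family as a point of the witness. -/
def famW (r : ι ≃ ι) (y : ι → OnePoint (A → VV)) (p : ι → Mt A (ZMod 4)) (h : OF p)
    (hr : EqF r y p) : WX A :=
  ⟨fam y p h, by
    classical
    intro v a b
    rw [fam_P, fam_P, Matrix.sum_apply, Matrix.sum_apply, Finset.mul_sum, Finset.sum_filter,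
      Finset.sum_filter]
    refine (Fintype.sum_equiv r _ _ fun i => ?_).symm
    rw [hr.lab, hr.pts]
    have : (rotP (y i) = ((rot v : A → VV) : OnePoint (A → VV))) ↔ y i = (v : OnePoint (A → VV)) := by
      rw [← rotP_coe]
      exact rotP_injective.eq_iff
    simp only [this]⟩

theorem famW_val (r : ι ≃ ι) (y : ι → OnePoint (A → VV)) (p : ι → Mt A (ZMod 4)) (h : OF p)
    (hr : EqF r y p) : (famW r y p h hr).1 = fam y p h := rfl

theorem continuousAt_famW {X : Type*} [TopologicalSpace X] {r : X → ι ≃ ι}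
    {y : X → ι → OnePoint (A → VV)} {p : X → ι → Mt A (ZMod 4)} (h : ∀ x, OF (p x))
    (hr : ∀ x, EqF (r x) (y x) (p x)) {x₀ : X}
    (hy : ∀ i, ContinuousAt (fun x => y x i) x₀)
    (hp : ∀ i, y x₀ i ≠ ∞ → ContinuousAt (fun x => p x i) x₀) :
    ContinuousAt (fun x => famW (r x) (y x) (p x) (h x) (hr x)) x₀ :=
  Topology.IsInducing.subtypeVal.continuousAt_iff.2 (continuousAt_fam h hy hp)

theorem famW_infty (r : ι ≃ ι) {y : ι → OnePoint (A → VV)} {p : ι → Mt A (ZMod 4)} (h : OF p)
    (hr : EqF r y p) (hy : ∀ i, y i = ∞) : famW r y p h hr = Wpt A :=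
  Subtype.ext (fam_infty h hy)

end famW

/-! ### Points in the real direction -/

section real

variable {A N : Type} [Fintype A] [DecidableEq A]

open Classical in
/-- The point `(rho (s i), 0)_i`, `∞` on the boundary. -/
def rhoP (s : A → I) : OnePoint (A → VV) :=
  if s ∈ Cube.boundary A then ∞ else ((fun i => (rho (s i), 0) : A → VV) : OnePoint (A → VV))

theorem rhoP_bdry {s : A → I} (h : s ∈ Cube.boundary A) : rhoP s = ∞ := if_pos h

theorem rhoP_of {s : A → I} (h : s ∉ Cube.boundary A) :
    rhoP s = ((fun i => (rho (s i), 0) : A → VV) : OnePoint (A → VV)) := if_neg h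

theorem rhoP_ne_infty {s : A → I} : rhoP s ≠ ∞ ↔ s ∉ Cube.boundary A := by
  constructor
  · intro h h'
    exact h (rhoP_bdry h')
  · intro h
    rw [rhoP_of h]
    exact OnePoint.coe_ne_infty _

theorem rotP_rhoP (s : A → I) : rotP (rhoP s) = rhoP s := by
  by_cases h : s ∈ Cube.boundary A
  · rw [rhoP_bdry h, rotP_infty]
  · rw [rhoP_of h, rotP_coe, rot_real]

theorem continuous_rhoP : Continuous (rhoP : (A → I) → OnePoint (A → VV)) := by
  rw [continuous_iff_continuousAt]
  intro s₀
  by_cases hs : s₀ ∈ Cube.boundary A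
  · obtain ⟨a, ha⟩ := hs
    rw [ContinuousAt, rhoP_bdry ⟨a, ha⟩, OnePoint.hasBasis_nhds_infty.tendsto_right_iff]
    rintro K ⟨-, hK⟩
    obtain ⟨M, hM⟩ := hK.isBounded.exists_norm_le
    have h1 := Wi.pRh.2 (s₀ a) ha (M + 1)
    have h2 := (continuous_apply a).continuousAt.eventually h1
    filter_upwards [h2] with s hs2
    by_cases hsb : s ∈ Cube.boundary A
    · rw [rhoP_bdry hsb]
      exact Or.inr rfl
    · rw [rhoP_of hsb]
      refine Or.inl ⟨_, ?_, rfl⟩
      intro hmem
      have hne0 : s a ≠ 0 := fun h' => hsb ⟨a, Or.inl h'⟩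
      have hne1 : s a ≠ 1 := fun h' => hsb ⟨a, Or.inr h'⟩
      have h3 := hs2 hne0 hne1
      have h4 := hM _ hmem
      have h5 := norm_le_pi_norm (fun i => ((rho (s i), 0) : VV)) a
      have h6 : ‖(((rho (s a), 0) : VV)).1‖ ≤ ‖((rho (s a), 0) : VV)‖ := norm_fst_le _
      rw [Real.norm_eq_abs] at h6
      linarith
  · have hev : ∀ᶠ s in 𝓝 s₀, s ∉ Cube.boundary A :=
      Wi.Un.isClosed_boundary.isOpen_compl.mem_nhds hs
    have h1 : (rhoP : (A → I) → OnePoint (A → VV)) =ᶠ[𝓝 s₀]
        fun s => ((Wi.Un.pt s : A → VV) : OnePoint (A → VV)) := by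
      filter_upwards [hev] with s hs2
      exact rhoP_of hs2
    refine ContinuousAt.congr ?_ h1.symm
    have h2 : ContinuousAt (Wi.Un.pt : (A → I) → A → VV) s₀ := by
      rw [continuousAt_pi]
      intro a
      refine ContinuousAt.prodMk ?_ continuousAt_const
      have hne0 : s₀ a ≠ 0 := fun h' => hs ⟨a, Or.inl h'⟩
      have hne1 : s₀ a ≠ 1 := fun h' => hs ⟨a, Or.inr h'⟩
      have ho : IsOpen {t : I | t ≠ 0 ∧ t ≠ 1} := isOpen_ne.inter isOpen_ne
      exact ContinuousAt.comp (f := fun s : A → I => s a)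
        (Wi.pRh.1.continuousAt (ho.mem_nhds ⟨hne0, hne1⟩)) (continuous_apply a).continuousAt
    exact OnePoint.continuous_coe.continuousAt.comp h2

/-- Orthogonal projections which commute with the cyclic group. -/
def PD (A : Type) [Fintype A] [DecidableEq A] : Type :=
  {p : Mt A (ZMod 4) // p.IsHermitian ∧ p * p = p ∧
    ∀ a b, p a b = chi a * (starRingEnd ℂ) (chi b) * p a b}

instance : TopologicalSpace (PD A) := instTopologicalSpaceSubtype

theorem OF_unit {J : Type} [Fintype J] {p : Matrix J J ℂ} (h1 : p.IsHermitian) (h2 : p * p = p) :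
    OF fun _ : Unit => p := ⟨fun _ => h1, fun _ => h2, fun i j h => absurd (Subsingleton.elim i j) h⟩

/-- The configuration with one point `y`, which is fixed by the cyclic group. -/
def oneW (y : OnePoint (A → VV)) (hy : rotP y = y) (p : PD A) : WX A :=
  famW (Equiv.refl Unit) (fun _ => y) (fun _ => p.1) (OF_unit p.2.1 p.2.2.1)
    ⟨fun _ => hy.symm, fun _ => p.2.2.2⟩

theorem oneW_infty (p : PD A) : oneW ∞ rotP_infty p = Wpt A := famW_infty _ _ _ fun _ => rfl

theorem oneW_of_infty {y : OnePoint (A → VV)} (hy : rotP y = y) (p : PD A) (h : y = ∞) :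
    oneW y hy p = Wpt A := by
  subst h
  exact oneW_infty p

open Classical in
theorem oneW_P (y : OnePoint (A → VV)) (hy : rotP y = y) (p : PD A) (v : A → VV) :
    (oneW y hy p).1.P v = if y = (v : OnePoint (A → VV)) then p.1 else 0 := by
  show (fam (fun _ : Unit => y) (fun _ => p.1) (OF_unit p.2.1 p.2.2.1)).P v = _
  rw [fam_P, Finset.sum_filter]
  simp

theorem continuousAt_oneW {X : Type*} [TopologicalSpace X] {y : X → OnePoint (A → VV)}
    (hy : ∀ x, rotP (y x) = y x) {p : X → PD A} {x₀ : X} (h1 : ContinuousAt y x₀)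
    (h2 : y x₀ ≠ ∞ → ContinuousAt p x₀) : ContinuousAt (fun x => oneW (y x) (hy x) (p x)) x₀ :=
  continuousAt_famW _ _ (fun _ => h1) fun _ h => continuous_subtype_val.continuousAt.comp (h2 h)

theorem oneW_congr {y y' : OnePoint (A → VV)} (hy : rotP y = y) (hy' : rotP y' = y') {p p' : PD A}
    (h : y = y') (hp : y' ≠ ∞ → p = p') : oneW y hy p = oneW y' hy' p' :=
  Subtype.ext (fam_congr (OF_unit p.2.1 p.2.2.1) (OF_unit p'.2.1 p'.2.2.1) (fun _ _ => h)
    fun _ h' => congrArg Subtype.val (hp h'))

/-- A one point family as a map from a sphere to the witness. -/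
def oneL (y : (N → I) → OnePoint (A → VV)) (hy : ∀ s, rotP (y s) = y s) (hc : Continuous y)
    (hb : ∀ s ∈ Cube.boundary N, y s = ∞) (p : (N → I) → PD A)
    (hp : ∀ s, y s ≠ ∞ → ContinuousAt p s) : WS.L N A :=
  ⟨⟨fun s => oneW (y s) (hy s) (p s), continuous_iff_continuousAt.2 fun s =>
      continuousAt_oneW hy hc.continuousAt (hp s)⟩,
    fun s hs => oneW_of_infty (hy s) (p s) (hb s hs)⟩

theorem oneL_apply (y : (N → I) → OnePoint (A → VV)) (hy : ∀ s, rotP (y s) = y s)
    (hc : Continuous y) (hb : ∀ s ∈ Cube.boundary N, y s = ∞) (p : (N → I) → PD A)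
    (hp : ∀ s, y s ≠ ∞ → ContinuousAt p s) (s : N → I) :
    oneL y hy hc hb p hp s = oneW (y s) (hy s) (p s) := rfl

/-- A homotopy of one point families. -/
theorem oneL_homotopic {y y' : (N → I) → OnePoint (A → VV)} {hy : ∀ s, rotP (y s) = y s}
    {hy' : ∀ s, rotP (y' s) = y' s} {hc : Continuous y} {hc' : Continuous y'}
    {hb : ∀ s ∈ Cube.boundary N, y s = ∞} {hb' : ∀ s ∈ Cube.boundary N, y' s = ∞}
    {p p' : (N → I) → PD A} {hp : ∀ s, y s ≠ ∞ → ContinuousAt p s}
    {hp' : ∀ s, y' s ≠ ∞ → ContinuousAt p' s}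
    (Y : I × (N → I) → OnePoint (A → VV)) (hY : ∀ q, rotP (Y q) = Y q) (hYc : Continuous Y)
    (hYb : ∀ t, ∀ s ∈ Cube.boundary N, Y (t, s) = ∞) (R : I × (N → I) → PD A)
    (hR : ∀ q, Y q ≠ ∞ → ContinuousAt R q) (h0 : ∀ s, Y (0, s) = y s) (h1 : ∀ s, Y (1, s) = y' s)
    (k0 : ∀ s, y s ≠ ∞ → R (0, s) = p s) (k1 : ∀ s, y' s ≠ ∞ → R (1, s) = p' s) :
    GenLoop.Homotopic (oneL y hy hc hb p hp) (oneL y' hy' hc' hb' p' hp') := by
  refine T2.homotopic_of (fun q => oneW (Y q) (hY q) (R q)) (continuous_iff_continuousAt.2 fun q =>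
      continuousAt_oneW hY hYc.continuousAt (hR q)) ?_ ?_ ?_
  · intro s
    show oneW (Y (0, s)) (hY _) (R (0, s)) = oneW (y s) (hy s) (p s)
    exact oneW_congr _ _ (h0 s) (k0 s)
  · intro s
    show oneW (Y (1, s)) (hY _) (R (1, s)) = oneW (y' s) (hy' s) (p' s)
    exact oneW_congr _ _ (h1 s) (k1 s)
  · intro t s hs
    exact oneW_of_infty (hY _) (R _) (hYb t s hs)

end real

end Pool.Agent.Tate
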