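import Pool.Agent.Lib.Tate.Wit
import Pool.Agent.Lib.Tate.W.Re
import Pool.Agent.Lib.Tate.W.Mu
import Pool.Agent.Lib.Tate.W.Den
import Pool.Agent.Lib.Tate.W.Un
import Pool.Agent.Lib.Tate.W.Rh
import Pool.Agent.Lib.Tate.W.T2
import Pool.Agent.Lib.Tate.Conn.N1
import Pool.Agent.Lib.Tate.Conn.Bu
import Pool.Agent.Lib.Tate.T2.SS

/-!
# C42 (MP_071d69_gt), block T3 (helper20): the witness `WS`, and the map `X A → X A ∧ P(..)_+`

`WS : CSRS` is the witness.  `inc f` is the composition of a representative `f : S^N → X A` with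
`x ↦ (x, base line)`; it is compatible with all operations.
-/

set_option linter.unusedSectionVars false

open Topology unitInterval Filter Set
open scoped Topology.Homotopy ZeroAtInfty OnePoint

noncomputable section

namespace Pool.Agent.Tate

/-- The witness as a commutative symmetric ring spectrum. -/
def WS : CSRS := W' Wi.pRe (Wi.pMu Wi.pDen Cnn.pN1) (Wi.pUn Wi.pRh) (Wi.pT2 Cnn.pBu)

section WS

variable {N M A B C : Type} [Fintype A] [DecidableEq A] [Fintype B] [DecidableEq B]
  [Fintype C] [DecidableEq C]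

theorem WS_X : WS.X A = WX A := rfl

theorem WS_pt : WS.pt A = Wpt A := rfl

theorem WS_map (e : A ≃ B) (x : WX A) : WS.map e x = Wmap e x := rfl

theorem WS_mul (x : WX A) (y : WX B) : WS.mul x y = Wmul x y := rfl

theorem WS_unit (s : A → I) : WS.unit A s = Wunit' s := rfl

end WS

/-! ### The inclusion `E → E ∧ CP^∞_+` -/

section inc

open CSRS T2

variable {E : CSRS}
variable {N M P Q A B C : Type} [Fintype A] [DecidableEq A] [Fintype B] [DecidableEq B]
  [Fintype C] [DecidableEq C]

variable (E) in
/-- `x ↦ (x, base line)` as a continuous map. -/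
def incC (A : Type) [Fintype A] [DecidableEq A] : C(E.X A, E.cp.X A) :=
  ⟨fun x => Sm.mk x (PL.one A), Sm.isQuotientMap.continuous.comp (Continuous.prodMk
    continuous_id continuous_const)⟩

theorem incC_apply (x : E.X A) : incC E A x = Sm.mk x (PL.one A) := rfl

theorem incC_pt : incC E A (E.pt A) = E.cp.pt A := rfl

/-- The inclusion on representatives. -/
def inc (f : E.L N A) : E.cp.L N A := post (incC E A) incC_pt f

theorem inc_apply (f : E.L N A) (s : N → I) : inc f s = Sm.mk (f s) (PL.one A) := rfl

theorem PL.map_one (e : A ≃ B) : PL.map e (PL.one A) = PL.one B :=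
  Subtype.ext (mre_mone e false)

theorem PL.one_mul_one : PL.mul (PL.one A) (PL.one B) = PL.one (A ⊕ B) :=
  Subtype.ext (mpr_mone false)

theorem inc_unit : inc (E.unit A) = E.cp.unit A := rfl

theorem inc_push (e : A ≃ B) (f : E.L N A) : inc (push e f) = push e (inc f) := by
  ext s
  show Sm.mk (E.map e (f s)) (PL.one B) = Sm.mk (E.map e (f s)) (PL.map e (PL.one A))
  rw [PL.map_one]

theorem inc_relab (e : N ≃ M) (f : E.L N A) : inc (relab e f) = relab e (inc f) := rfl

theorem inc_lrho (e : P ≃ Q) (a : A ≃ B) (f : E.L P A) : inc (lrho e a f) = lrho e a (inc f) := by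
  unfold lrho
  rw [inc_relab, inc_push]

theorem inc_prod (f : E.L N A) (g : E.L M B) : inc (prod f g) = prod (inc f) (inc g) := by
  ext s
  show Sm.mk (E.mul (f _) (g _)) (PL.one (A ⊕ B)) =
    Sm.mk (E.mul (f _) (g _)) (PL.mul (PL.one A) (PL.one B))
  rw [PL.one_mul_one]

theorem inc_homotopic {f g : E.L N A} (h : GenLoop.Homotopic f g) :
    GenLoop.Homotopic (inc f) (inc g) := post_homotopic _ _ h

theorem inc_const : inc (GenLoop.const : E.L N A) = GenLoop.const := rfl

theorem inc_transAt [DecidableEq N] (i : N) (f g : E.L N A) :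
    inc (GenLoop.transAt i f g) = GenLoop.transAt i (inc f) (inc g) := post_transAt _ _ i f g

/-- The inclusion on homotopy groups. -/
def incH : E.P N A → E.cp.P N A := postH (incC E A) incC_pt

theorem incH_mk (f : E.L N A) : incH (T2.cls f) = T2.cls (inc f) := rfl

theorem incH_mul [DecidableEq N] [Nonempty N] (f g : E.P N A) :
    incH (f * g) = incH f * incH g := postH_mul _ _ f g

theorem incH_one [DecidableEq N] [Nonempty N] : incH (1 : E.P N A) = 1 := by
  have h := incH_mul (E := E) (1 : E.P N A) 1
  rw [mul_one] at h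
  exact left_eq_mul.1 h

end inc

end Pool.Agent.Tate
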